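import Mathlib
import Pool.Agent.X215.RelCof

/-!
A sequence of length `ω₁` of mutually generic elements of `2^ω` under CH.
-/

namespace Pool.Agent.X215.Ent

open Set Cardinal
open Pool.Agent.X215.RelCof (Ω)

abbrev Z : Type := ZMod 2
abbrev X2 : Type := ℕ → Z

/-- The restriction to the first `n` values. -/
def pre (n : ℕ) (x : X2) : List Z := (List.range n).map x

theorem pre_eq_iff {n : ℕ} {x y : X2} : pre n x = pre n y ↔ ∀ i < n, x i = y i := by
  simp [pre]

theorem length_pre (n : ℕ) (x : X2) : (pre n x).length = n := by simp [pre]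

theorem getElem_pre {n i : ℕ} {x : X2} {z : Z} (h : (pre n x)[i]? = some z) : x i = z := by
  unfold pre at h
  rw [List.getElem?_map, List.getElem?_range] at h
  · simpa using h
  · by_contra hlt
    rw [List.getElem?_eq_none] at h
    · simp at h
    · simpa using hlt

theorem pre_prefix {n m : ℕ} (h : n ≤ m) (x : X2) : pre n x <+: pre m x := by
  obtain ⟨k, rfl⟩ := Nat.exists_eq_add_of_le h
  unfold pre
  rw [List.range_add, List.map_append]
  exact List.prefix_append _ _

theorem pre_of_prefix {n m : ℕ} {x y : X2} (h : pre n x <+: pre m y) : pre n x = pre n y := by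
  have hnm : n ≤ m := by
    have := h.length_le
    rwa [length_pre, length_pre] at this
  exact (List.prefix_of_prefix_length_le h (pre_prefix hnm y) (by
    rw [length_pre, length_pre])).eq_of_length (by rw [length_pre, length_pre])

/-- A word extends to an infinite sequence. -/
def ext (s : List Z) : X2 := fun l => s.getD l 0

theorem pre_ext (s : List Z) : pre s.length (ext s) = s := by
  apply List.ext_getElem
  · simp [pre]
  · intro i h1 h2
    simp [pre, ext, h2]

abbrev Cnd : Type := List (List Z)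

/-- Coordinatewise extension. -/
abbrev Le (q0 q : Cnd) : Prop := List.Forall₂ (· <+: ·) q0 q

/-- `D` is dense among the conditions of length `m`. -/
def DenseL (m : ℕ) (D : Set Cnd) : Prop := ∀ q0 : Cnd, q0.length = m → ∃ q ∈ D, Le q0 q

/-- The section of `D` at `x`. -/
def sec (D : Set Cnd) (x : X2) : Set Cnd := {q | ∃ n, pre n x :: q ∈ D}

/-- The tuple `l` meets `D`. -/
def Meets (D : Set Cnd) (l : List X2) : Prop :=
  ∃ q ∈ D, List.Forall₂ (fun x s => ∃ n, pre n x = s) l q

theorem meets_cons {D : Set Cnd} {x : X2} {l : List X2} (h : Meets (sec D x) l) :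
    Meets D (x :: l) := by
  obtain ⟨q, ⟨n, hn⟩, hq⟩ := h
  exact ⟨_, hn, List.Forall₂.cons ⟨n, rfl⟩ hq⟩

theorem exists_gen (𝓓 : Set (Set Cnd)) (h𝓓 : 𝓓.Countable) :
    ∃ x : X2, ∀ D ∈ 𝓓, ∀ m, DenseL (m + 1) D → DenseL m (sec D x) := by
  haveI : Countable 𝓓 := h𝓓
  let ι : Type := {p : 𝓓 × Cnd // DenseL (p.2.length + 1) p.1.1}
  let U : ι → Set X2 := fun p => {x | ∃ q ∈ sec p.1.1.1 x, Le p.1.2 q}
  have hopen : ∀ p, IsOpen (U p) := by
    intro p
    rw [isOpen_iff_forall_mem_open]
    rintro x ⟨q, ⟨n, hn⟩, hq⟩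
    refine ⟨{y | ∀ i ∈ Finset.range n, y i = x i}, ?_, ?_, fun i _ => rfl⟩
    · intro y hy
      have : pre n y = pre n x := pre_eq_iff.2 fun i hi => hy i (Finset.mem_range.2 hi)
      exact ⟨q, ⟨n, by rw [this]; exact hn⟩, hq⟩
    · have : {y : X2 | ∀ i ∈ Finset.range n, y i = x i} =
          ⋂ i ∈ Finset.range n, {y : X2 | y i = x i} := by
        ext t
        simp
      rw [this]
      apply isOpen_biInter_finset
      intro i _
      have hc : Continuous (fun t : X2 => t i) := continuous_apply i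
      exact (isOpen_discrete ({x i} : Set Z)).preimage hc
  have hdense : ∀ p, Dense (U p) := by
    rintro ⟨⟨D, q0⟩, hp⟩
    rw [dense_iff_inter_open]
    intro V hV ⟨y, hy⟩
    obtain ⟨I, t, ht, hsub⟩ := Filter.mem_pi'.1 (by
      have := hV.mem_nhds hy
      rwa [nhds_pi] at this)
    set n := I.sup id + 1 with hn
    obtain ⟨q', hq', hle⟩ := hp (pre n y :: q0) (by simp)
    rcases hle with _ | ⟨h1, h2⟩
    rename_i s q
    refine ⟨ext s, ?_, ⟨q, ⟨s.length, by rw [pre_ext]; exact hq'⟩, h2⟩⟩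
    apply hsub
    intro i hi
    have h3 : pre n y <+: pre s.length (ext s) := by rw [pre_ext]; exact h1
    have h4 := pre_eq_iff.1 (pre_of_prefix h3) i
      (Nat.lt_succ_of_le (Finset.le_sup (f := id) hi))
    rw [← h4]
    exact mem_of_mem_nhds (ht i)
  obtain ⟨x, hx⟩ := (dense_iInter_of_isOpen hopen hdense).nonempty
  refine ⟨x, fun D hD m hm q0 hq0 => ?_⟩
  have := Set.mem_iInter.1 hx ⟨(⟨D, hD⟩, q0), by rw [hq0]; exact hm⟩
  exact this

/-- Iterated sections. -/
def secL (D : Set Cnd) (l : List X2) : Set Cnd := l.foldl sec D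

theorem secL_append (D : Set Cnd) (l : List X2) (x : X2) :
    secL D (l ++ [x]) = sec (secL D l) x := by simp [secL]

section Rec

variable (𝓔 : Set (Set Cnd)) (e : Ω → Set Cnd)

/-- The dense sets considered at stage `a`. -/
def fam (a : Ω) (prev : (b : Ω) → b < a → X2) : Set (Set Cnd) :=
  {D | ∃ D0, (D0 ∈ 𝓔 ∨ ∃ ξ < a, D0 = e ξ) ∧ ∃ l : List {b : Ω // b < a},
    D = secL D0 (l.map fun b => prev b.1 b.2)}

variable {𝓔}

theorem fam_countable (h𝓔 : 𝓔.Countable) (a : Ω) (prev : (b : Ω) → b < a → X2) :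
    (fam 𝓔 e a prev).Countable := by
  have h1 : (𝓔 ∪ e '' Set.Iio a).Countable :=
    h𝓔.union ((Pool.Agent.X215.RelCof.Ω_Iio_countable a).image e)
  haveI : Countable {b : Ω // b < a} := (Pool.Agent.X215.RelCof.Ω_Iio_countable a).to_subtype
  have h2 : fam 𝓔 e a prev ⊆ ⋃ D0 ∈ 𝓔 ∪ e '' Set.Iio a,
      Set.range fun l : List {b : Ω // b < a} => secL D0 (l.map fun b => prev b.1 b.2) := by
    rintro D ⟨D0, hD0, l, rfl⟩
    refine Set.mem_iUnion₂.2 ⟨D0, ?_, l, rfl⟩
    rcases hD0 with h | ⟨ξ, hξ, rfl⟩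
    · exact Or.inl h
    · exact Or.inr ⟨ξ, hξ, rfl⟩
  exact (h1.biUnion fun D0 _ => Set.countable_range _).mono h2

/-- The generic sequence. -/
noncomputable def gen (h𝓔 : 𝓔.Countable) : Ω → X2 :=
  (wellFounded_lt (α := Ω)).fix fun a prev => (exists_gen _ (fam_countable e h𝓔 a prev)).choose

theorem gen_spec (h𝓔 : 𝓔.Countable) (a : Ω) (D : Set Cnd)
    (hD : D ∈ fam 𝓔 e a fun b _ => gen e h𝓔 b) (m : ℕ) (hm : DenseL (m + 1) D) :
    DenseL m (sec D (gen e h𝓔 a)) := by
  have h1 : gen e h𝓔 a =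
      (exists_gen _ (fam_countable e h𝓔 a fun b _ => gen e h𝓔 b)).choose := by
    rw [gen, WellFounded.fix_eq]
  rw [h1]
  exact (exists_gen _ (fam_countable e h𝓔 a fun b _ => gen e h𝓔 b)).choose_spec D hD m hm

/-- Increasing tuples of members of the generic sequence meet the dense sets. -/
theorem gen_meets (h𝓔 : 𝓔.Countable) (D0 : Set Cnd) (l : List Ω) (hl : l.Pairwise (· < ·))
    (hD0 : D0 ∈ 𝓔 ∨ ∃ ξ, D0 = e ξ ∧ ∀ b ∈ l, ξ < b) (hd : DenseL l.length D0) :
    Meets D0 (l.map (gen e h𝓔)) := by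
  suffices h : ∀ (l l1 : List Ω), (l1 ++ l).Pairwise (· < ·) →
      (D0 ∈ 𝓔 ∨ ∃ ξ, D0 = e ξ ∧ ∀ b ∈ l, ξ < b) →
      DenseL l.length (secL D0 (l1.map (gen e h𝓔))) →
      Meets (secL D0 (l1.map (gen e h𝓔))) (l.map (gen e h𝓔)) by
    exact h l [] hl hD0 hd
  intro l
  induction l with
  | nil =>
    intro l1 _ _ hd
    obtain ⟨q, hq, hle⟩ := hd [] rfl
    cases hle
    exact ⟨[], hq, List.Forall₂.nil⟩
  | cons b l ih =>
    intro l1 hp hD hd
    apply meets_cons
    have hmem : secL D0 (l1.map (gen e h𝓔)) ∈ fam 𝓔 e b fun b _ => gen e h𝓔 b := by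
      refine ⟨D0, ?_, ?_⟩
      · rcases hD with h | ⟨ξ, h1, h2⟩
        · exact Or.inl h
        · exact Or.inr ⟨ξ, h2 b (List.mem_cons_self), h1⟩
      · have hlt : ∀ c ∈ l1, c < b := fun c hc =>
          (List.pairwise_append.1 hp).2.2 c hc b (List.mem_cons_self)
        refine ⟨l1.attach.map fun c => ⟨c.1, hlt c.1 c.2⟩, ?_⟩
        rw [List.map_map]
        congr 1
        have : l1.map (gen e h𝓔) = (l1.attach.map Subtype.val).map (gen e h𝓔) := by
          rw [List.attach_map_subtype_val]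
        rw [this, List.map_map]
        rfl
    have h1 := gen_spec e h𝓔 b _ hmem l.length (by simpa using hd)
    have h2 : secL D0 ((l1 ++ [b]).map (gen e h𝓔)) =
        sec (secL D0 (l1.map (gen e h𝓔))) (gen e h𝓔 b) := by
      rw [List.map_append]
      exact secL_append _ _ _
    rw [← h2] at h1 ⊢
    apply ih (l1 ++ [b])
    · rw [List.append_assoc]
      exact hp
    · rcases hD with h | ⟨ξ, h3, h4⟩
      · exact Or.inl h
      · exact Or.inr ⟨ξ, h3, fun c hc => h4 c (List.mem_cons_of_mem _ hc)⟩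
    · exact h1

end Rec

/-! ### The delta system lemma -/

/-- An uncountable family of finite sets of bounded size has an uncountable subfamily which is a
delta system. -/
theorem delta_card {ι κ : Type} [DecidableEq κ] (n : ℕ) : ∀ (S : ι → Finset κ) (J : Set ι),
    ¬ J.Countable → (∀ a ∈ J, (S a).card = n) →
    ∃ J' ⊆ J, ¬ J'.Countable ∧ ∃ R : Finset κ, ∀ a ∈ J', ∀ b ∈ J', a ≠ b → S a ∩ S b = R := by
  classical
  induction n with
  | zero =>
    intro S J hJ hS
    refine ⟨J, subset_rfl, hJ, ∅, fun a ha b _ _ => ?_⟩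
    rw [Finset.card_eq_zero.1 (hS a ha), Finset.empty_inter]
  | succ n ih =>
    intro S J hJ hS
    by_cases h : ∃ α, ¬ {a ∈ J | α ∈ S a}.Countable
    · obtain ⟨α, hα⟩ := h
      obtain ⟨J', hJ', hunc, R, hR⟩ := ih (fun a => (S a).erase α) {a ∈ J | α ∈ S a} hα (by
        rintro a ⟨ha, haα⟩
        rw [Finset.card_erase_of_mem haα, hS a ha]
        rfl)
      refine ⟨J', hJ'.trans (Set.sep_subset _ _), hunc, insert α R, fun a ha b hb hab => ?_⟩
      have h1 : (S a).erase α ∩ (S b).erase α = (S a ∩ S b).erase α := by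
        ext x
        simp only [Finset.mem_inter, Finset.mem_erase]
        tauto
      rw [← hR a ha b hb hab, h1, Finset.insert_erase]
      exact Finset.mem_inter.2 ⟨(hJ' ha).2, (hJ' hb).2⟩
    · push Not at h
      obtain ⟨M, -, hM⟩ := zorn_subset_nonempty
        {A : Set ι | A ⊆ J ∧ ∀ a ∈ A, ∀ b ∈ A, a ≠ b → Disjoint (S a) (S b)} (by
        intro c hc hchain hne
        refine ⟨⋃₀ c, ⟨Set.sUnion_subset fun A hA => (hc hA).1, ?_⟩,
          fun s hs => Set.subset_sUnion_of_mem hs⟩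
        rintro p ⟨A, hA, hp⟩ p' ⟨A', hA', hp'⟩ hne'
        rcases hchain.total hA hA' with h | h
        · exact (hc hA').2 p (h hp) p' hp' hne'
        · exact (hc hA).2 p hp p' (h hp') hne') ∅ ⟨Set.empty_subset _, by simp⟩
      obtain ⟨hMJ, hMd⟩ := hM.prop
      refine ⟨M, hMJ, ?_, ∅, fun a ha b hb hab =>
        Finset.disjoint_iff_inter_eq_empty.1 (hMd a ha b hb hab)⟩
      intro hcount
      have h1 : (⋃ a ∈ M, ⋃ α ∈ (S a : Set κ), {b ∈ J | α ∈ S b}).Countable := by
        apply hcount.biUnion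
        intro a _
        apply (Finset.countable_toSet _).biUnion
        intro α _
        exact h α
      obtain ⟨b, hbJ, hb⟩ : ∃ b ∈ J, b ∉ (⋃ a ∈ M, ⋃ α ∈ (S a : Set κ), {b ∈ J | α ∈ S b}) ∪ M := by
        by_contra hcon
        push Not at hcon
        exact hJ ((h1.union hcount).mono hcon)
      have hins : insert b M ∈
          {A : Set ι | A ⊆ J ∧ ∀ a ∈ A, ∀ b ∈ A, a ≠ b → Disjoint (S a) (S b)} := by
        have hdis : ∀ a ∈ M, Disjoint (S a) (S b) := by
          intro a ha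
          rw [Finset.disjoint_left]
          intro α hα hαb
          apply hb
          left
          exact Set.mem_iUnion₂.2 ⟨a, ha, Set.mem_iUnion₂.2 ⟨α, hα, hbJ, hαb⟩⟩
        refine ⟨Set.insert_subset hbJ hMJ, ?_⟩
        rintro p (rfl | hp) p' (rfl | hp') hne
        · exact absurd rfl hne
        · exact (hdis p' hp').symm
        · exact hdis p hp
        · exact hMd p hp p' hp' hne
      have heq := hM.eq_of_subset hins (Set.subset_insert _ _)
      apply hb
      right
      rw [heq]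
      exact Set.mem_insert _ _

/-- A countable colouring of an uncountable set is constant on an uncountable subset. -/
theorem exists_fiber {ι κ : Type} [Countable κ] {J : Set ι} (hJ : ¬ J.Countable) (f : ι → κ) :
    ∃ c, ¬ {a ∈ J | f a = c}.Countable := by
  by_contra hcon
  push Not at hcon
  apply hJ
  apply (Set.countable_iUnion hcon).mono
  intro a ha
  exact Set.mem_iUnion.2 ⟨f a, ha, rfl⟩

theorem delta {ι κ : Type} [DecidableEq κ] (S : ι → Finset κ) (J : Set ι)
    (hJ : ¬ J.Countable) : ∃ J' ⊆ J, ¬ J'.Countable ∧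
      ∃ R : Finset κ, ∀ a ∈ J', ∀ b ∈ J', a ≠ b → S a ∩ S b = R := by
  obtain ⟨n, hn⟩ := exists_fiber hJ fun a => (S a).card
  obtain ⟨J', h1, h2, h3⟩ := delta_card n S _ hn fun a ha => ha.2
  exact ⟨J', h1.trans (Set.sep_subset _ _), h2, h3⟩

end Pool.Agent.X215.Ent
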