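import Mathlib
import Pool.Agent.X215.Ent.Generic

/-!
The order, and entangledness.
-/

namespace Pool.Agent.X215.Ent

open Set Cardinal Topology
open Pool.Agent.X215.RelCof (Ω exists_bound)

/-! ### The order -/

/-- An enumeration of the tasks. -/
noncomputable def enumC : ℕ → ℕ × Finset (List Z) :=
  (exists_surjective_nat (ℕ × Finset (List Z))).choose

theorem enumC_surjective : Function.Surjective enumC :=
  (exists_surjective_nat (ℕ × Finset (List Z))).choose_spec

/-- The task of the level `n`: every pair occurs infinitely often. -/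
noncomputable def code (n : ℕ) : ℕ × Finset (List Z) := enumC (Nat.unpair n).2

theorem exists_code (c : ℕ × Finset (List Z)) (N : ℕ) : ∃ n, N ≤ n ∧ code n = c := by
  obtain ⟨k, hk⟩ := enumC_surjective c
  refine ⟨Nat.pair N k, Nat.left_le_pair _ _, ?_⟩
  rw [code, Nat.unpair_pair]
  exact hk

open Classical in
/-- The flip bit of `x` at level `n`; it depends on the first `n` values of `x` only. -/
noncomputable def eps (x : X2) (n : ℕ) : Z :=
  if (code n).1 ≤ n ∧ pre (code n).1 x ∈ (code n).2 then 1 else 0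

theorem eps_congr {x y : X2} {n : ℕ} (h : ∀ i < n, x i = y i) : eps x n = eps y n := by
  unfold eps
  by_cases hc : (code n).1 ≤ n
  · rw [pre_eq_iff.2 fun i hi => h i (hi.trans_le hc)]
  · simp [hc]

/-- The flipped sequence. -/
noncomputable def Phi (x : X2) : ℕ → Bool := fun n => decide (x n + eps x n = 1)

/-- The embedding in the real line. -/
noncomputable def phi (x : X2) : ℝ := cantorFunction (1 / 3) (Phi x)

theorem phi_lt {x y : X2} {n : ℕ} (h : ∀ i < n, x i = y i) (hx : x n + eps x n = 0)
    (hy : y n + eps y n = 1) : phi x < phi y := by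
  apply increasing_cantorFunction (by norm_num) (by norm_num) (n := n)
  · intro k hk
    unfold Phi
    rw [h k hk, eps_congr fun i hi => h i (hi.trans hk)]
  · simp [Phi, hx]
  · simp [Phi, hy]

theorem continuous_Phi : Continuous Phi := by
  apply continuous_pi
  intro n
  apply IsLocallyConstant.continuous
  rw [IsLocallyConstant.iff_exists_open]
  intro x
  refine ⟨{y | ∀ i ∈ Finset.range (n + 1), y i = x i}, ?_, fun i _ => rfl, ?_⟩
  · have : {y : X2 | ∀ i ∈ Finset.range (n + 1), y i = x i} =
        ⋂ i ∈ Finset.range (n + 1), {y : X2 | y i = x i} := by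
      ext t
      simp
    rw [this]
    apply isOpen_biInter_finset
    intro i _
    have hc : Continuous (fun t : X2 => t i) := continuous_apply i
    exact (isOpen_discrete ({x i} : Set Z)).preimage hc
  · intro y hy
    have h1 : y n = x n := hy n (Finset.mem_range.2 (by omega))
    have h2 : eps y n = eps x n := eps_congr fun i hi => hy i (Finset.mem_range.2 (by omega))
    unfold Phi
    rw [h1, h2]

theorem continuous_cantor : Continuous (cantorFunction (1 / 3)) := by
  unfold cantorFunction
  apply continuous_tsum (u := fun n : ℕ => ((1 : ℝ) / 3) ^ n)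
  · intro n
    have h2 : Continuous (fun c : Bool => bif c then ((1 : ℝ) / 3) ^ n else 0) :=
      continuous_of_discreteTopology
    exact h2.comp (continuous_apply n)
  · exact summable_geometric_of_lt_one (by norm_num) (by norm_num)
  · intro n f
    unfold cantorFunctionAux
    cases f n
    · simp
    · simp

theorem Phi_injective : Function.Injective Phi := by
  intro x y h
  by_contra hne
  obtain ⟨n, hn⟩ := Function.ne_iff.1 hne
  classical
  have hex : ∃ n, x n ≠ y n := ⟨n, hn⟩
  set m := Nat.find hex with hm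
  have h1 : x m ≠ y m := Nat.find_spec hex
  have h2 : ∀ i < m, x i = y i := fun i hi => not_not.1 (Nat.find_min hex hi)
  have h3 : eps x m = eps y m := eps_congr h2
  have h4 := congrFun h m
  unfold Phi at h4
  rw [h3] at h4
  have h5 : ∀ a b c : Z, decide (a + c = 1) = decide (b + c = 1) → a = b := by decide
  exact h1 (h5 _ _ _ h4)

theorem isEmbedding_phi : IsEmbedding phi := by
  have hc : Continuous phi := continuous_cantor.comp continuous_Phi
  have hi : Function.Injective phi :=
    (cantorFunction_injective (by norm_num) (by norm_num)).comp Phi_injective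
  exact (hc.isClosedEmbedding hi).isEmbedding

/-! ### The group -/

/-- The base family of dense sets. -/
def Ezero (c : ℕ × Finset (List Z)) (N : ℕ) : Set Cnd :=
  {q | ∃ n, N ≤ n ∧ code n = c ∧ ∀ s ∈ q, s[n]? = some 0}

/-- The dense set separating pairs. -/
def Dne : Set Cnd := {q | ∃ s t : List Z, q = [s, t] ∧ ∃ n : ℕ, s[n]? = some 0 ∧ t[n]? = some 1}

/-- The base family. -/
def base : Set (Set Cnd) := insert Dne (Set.range fun p : (ℕ × Finset (List Z)) × ℕ => Ezero p.1 p.2)

theorem base_countable : base.Countable := (Set.countable_range _).insert _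

/-- Padding a word to length more than `n`. -/
theorem exists_pad (s : List Z) (n : ℕ) (h : s.length ≤ n) (z : Z) :
    ∃ t, s <+: t ∧ t[n]? = some z := by
  refine ⟨s ++ List.replicate (n + 1 - s.length) z, List.prefix_append _ _, ?_⟩
  rw [List.getElem?_append_right h, List.getElem?_replicate, if_pos (by omega)]

theorem dense_Dne : DenseL 2 Dne := by
  intro q0 hq0
  obtain ⟨s, t, rfl⟩ := List.length_eq_two.1 hq0
  obtain ⟨s', hs, hs'⟩ := exists_pad s (max s.length t.length) (le_max_left _ _) 0
  obtain ⟨t', ht, ht'⟩ := exists_pad t (max s.length t.length) (le_max_right _ _) 1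
  exact ⟨[s', t'], ⟨s', t', rfl, _, hs', ht'⟩, .cons hs (.cons ht .nil)⟩

theorem dense_Ezero (c : ℕ × Finset (List Z)) (N m : ℕ) : DenseL m (Ezero c N) := by
  intro q0 _
  obtain ⟨M, hM⟩ : ∃ M, ∀ s ∈ q0, s.length ≤ M :=
    ⟨(q0.map List.length).sum, fun s hs => List.single_le_sum (by simp) _
      (List.mem_map_of_mem hs)⟩
  obtain ⟨n, hn, hc⟩ := exists_code c (max N M)
  choose f hf1 hf2 using fun s : List Z => exists_pad (s.take n) n (List.length_take_le _ _) 0
  refine ⟨q0.map f, ⟨n, (le_max_left _ _).trans hn, hc, ?_⟩, ?_⟩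
  · intro s hs
    obtain ⟨t, -, rfl⟩ := List.mem_map.1 hs
    exact hf2 t
  · apply List.forall₂_map_right_iff.2
    apply List.forall₂_same.2
    intro s hs
    have := hf1 s
    rwa [List.take_of_length_le ((hM s hs).trans ((le_max_right _ _).trans hn))] at this

/-! ### Consequences of genericity -/

section CH

variable (e : Ω → Set Cnd) (he : Function.Surjective e)

/-- The generic sequence. -/
noncomputable def xx : Ω → X2 := gen e base_countable

theorem sort_pairwise (R : Finset Ω) : (R.sort (· ≤ ·)).Pairwise (· < ·) := by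
  exact Finset.sortedLT_sort R |>.pairwise

theorem xx_vanish (c : ℕ × Finset (List Z)) (N : ℕ) (R : Finset Ω) :
    ∃ n, N ≤ n ∧ code n = c ∧ ∀ α ∈ R, xx e α n = 0 := by
  obtain ⟨q, ⟨n, hn, hc, hq⟩, hf⟩ := gen_meets e base_countable (Ezero c N) (R.sort (· ≤ ·))
    (sort_pairwise R) (Or.inl (Or.inr ⟨(c, N), rfl⟩)) (dense_Ezero _ _ _)
  refine ⟨n, hn, hc, fun α hα => ?_⟩
  have hmem : xx e α ∈ (R.sort (· ≤ ·)).map (gen e base_countable) :=
    List.mem_map_of_mem ((Finset.mem_sort _).2 hα)
  rw [List.forall₂_iff_get] at hf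
  obtain ⟨hlen, hget⟩ := hf
  obtain ⟨i, hi⟩ := List.get_of_mem hmem
  obtain ⟨k, hk⟩ := hget i i.2 (hlen ▸ i.2)
  have h1 := hq _ (List.get_mem q ⟨i, hlen ▸ i.2⟩)
  rw [← hk] at h1
  have h2 := getElem_pre h1
  have h3 : ((R.sort (· ≤ ·)).map (gen e base_countable)).get ⟨i, i.2⟩ = xx e α := hi
  rwa [h3] at h2

theorem xx_injective : Function.Injective (xx e) := by
  have key : ∀ α β : Ω, α < β → xx e α ≠ xx e β := by
    intro α β h heq
    obtain ⟨q, ⟨s, t, rfl, n, hs, ht⟩, hf⟩ := gen_meets e base_countable Dne [α, β]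
      (by simpa using h) (Or.inl (Or.inl rfl)) dense_Dne
    rcases hf with _ | ⟨⟨k, hk⟩, hf'⟩
    rcases hf' with _ | ⟨⟨k', hk'⟩, -⟩
    rw [← hk] at hs
    rw [← hk'] at ht
    have h1 : xx e α n = 0 := getElem_pre hs
    have h2 : xx e β n = 1 := getElem_pre ht
    rw [heq, h2] at h1
    exact one_ne_zero h1
  intro α β h
  rcases lt_trichotomy α β with h1 | h1 | h1
  · exact absurd h (key α β h1)
  · exact h1
  · exact absurd h.symm (key β α h1)

include he in
theorem xx_dense {ι : Type} {J : Set ι} (hJ : ¬ J.Countable) (L : ι → List Ω) (m : ℕ)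
    (hL : ∀ a ∈ J, (L a).Pairwise (· < ·)) (hm : ∀ a ∈ J, (L a).length = m)
    (hd : ∀ a ∈ J, ∀ b ∈ J, a ≠ b → ∀ α ∈ L a, α ∉ L b) :
    ∃ q0 : Cnd, q0.length = m ∧ ∀ q, Le q0 q →
      ∃ a ∈ J, List.Forall₂ (fun x s => ∃ n, pre n x = s) ((L a).map (xx e)) q := by
  by_contra hcon
  push Not at hcon
  obtain ⟨ξ, hξ⟩ := he {q : Cnd | ¬ ∃ a ∈ J,
    List.Forall₂ (fun x s => ∃ n, pre n x = s) ((L a).map (xx e)) q}
  have hdense : DenseL m (e ξ) := by
    intro q0 hq0
    obtain ⟨q, hq, hq'⟩ := hcon q0 hq0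
    refine ⟨q, ?_, hq⟩
    rw [hξ]
    rintro ⟨a, ha, hf⟩
    exact hq' a ha hf
  obtain ⟨a, haJ, ha⟩ : ∃ a ∈ J, ∀ β ∈ L a, ξ < β := by
    by_contra hcon2
    push Not at hcon2
    apply hJ
    have h1 : (⋃ β ∈ Set.Iic ξ, {a ∈ J | β ∈ L a}).Countable := by
      apply Set.Countable.biUnion
      · rw [← Set.Iio_insert]
        exact (Pool.Agent.X215.RelCof.Ω_Iio_countable ξ).insert ξ
      · intro β _
        apply Set.Subsingleton.countable
        rintro a ⟨ha, hβa⟩ b ⟨hb, hβb⟩
        by_contra hne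
        exact hd a ha b hb hne β hβa hβb
    apply h1.mono
    intro a ha
    obtain ⟨β, hβ, hle⟩ := hcon2 a ha
    exact Set.mem_iUnion₂.2 ⟨β, hle, ha, hβ⟩
  obtain ⟨q, hq, hf⟩ := gen_meets e base_countable (e ξ) (L a) (hL a haJ)
    (Or.inr ⟨ξ, rfl, ha⟩) (by rw [hm a haJ]; exact hdense)
  rw [hξ] at hq
  exact hq ⟨a, haJ, hf⟩

/-! ### The main lemma -/

/-- The members of the group. -/
noncomputable def vv (F : Finset Ω) : X2 := ∑ α ∈ F, xx e α

include he in
theorem entangled_core {ι : Type} {J : Set ι} (hJ : ¬ J.Countable) {k : ℕ} (hk : 0 < k)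
    (c : ι → Fin k → Finset Ω)
    (hdist : ∀ a ∈ J, ∀ i j, i ≠ j → vv e (c a i) ≠ vv e (c a j))
    (hdisj : ∀ a ∈ J, ∀ b ∈ J, a ≠ b → ∀ i, vv e (c a i) ≠ vv e (c b i))
    (t : Fin k → Bool) : ∃ a ∈ J, ∃ b ∈ J, a ≠ b ∧
      ∀ i, (phi (vv e (c a i)) < phi (vv e (c b i)) ↔ t i = false) := by
  classical
  obtain ⟨J1, hJ1, hJ1u, R, hR⟩ := delta (fun a => Finset.univ.biUnion (c a)) J hJ
  let S : ι → Finset Ω := fun a => Finset.univ.biUnion (c a)
  let τ : ι → Finset Ω := fun a => S a \ R
  let L : ι → List Ω := fun a => (τ a).sort (· ≤ ·)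
  -- the pattern
  let patt : ι → ℕ × (Fin k → Finset {α // α ∈ R}) × (Fin k → Finset ℕ) := fun a =>
    ((τ a).card, fun i => R.attach.filter fun α => α.1 ∈ c a i,
      fun i => (Finset.range (τ a).card).filter fun j => ∃ β ∈ c a i, (L a)[j]? = some β)
  obtain ⟨⟨m, ρ, u⟩, hJ2u⟩ := exists_fiber hJ1u patt
  set J2 : Set ι := {a ∈ J1 | patt a = (m, ρ, u)} with hJ2
  have hJ2J : J2 ⊆ J := (Set.sep_subset _ _).trans hJ1
  have hcard : ∀ a ∈ J2, (τ a).card = m := fun a ha => congrArg Prod.fst ha.2
  have hρ : ∀ a ∈ J2, ∀ i, (R.attach.filter fun α => α.1 ∈ c a i) = ρ i := fun a ha i =>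
    congrFun (congrArg (fun p => p.2.1) ha.2) i
  have hu : ∀ a ∈ J2, ∀ i, ((Finset.range (τ a).card).filter fun j =>
      ∃ β ∈ c a i, (L a)[j]? = some β) = u i := fun a ha i =>
    congrFun (congrArg (fun p => p.2.2) ha.2) i
  have hLlen : ∀ a ∈ J2, (L a).length = m := fun a ha => by
    rw [← hcard a ha]; exact Finset.length_sort _
  let y : ι → ℕ → X2 := fun a j => ((L a).map (xx e)).getD j 0
  let g : Fin k → X2 := fun i => ∑ α ∈ ρ i, xx e α.1
  have hum : ∀ i, ∀ j ∈ u i, j < m := by
    intro i j hj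
    obtain ⟨a, ha⟩ : J2.Nonempty := by
      by_contra hne
      rw [Set.not_nonempty_iff_eq_empty] at hne
      rw [hne] at hJ2u
      exact hJ2u Set.countable_empty
    rw [← hu a ha i, hcard a ha] at hj
    exact Finset.mem_range.1 (Finset.mem_filter.1 hj).1
  have hv : ∀ a ∈ J2, ∀ i, vv e (c a i) = g i + ∑ j ∈ u i, y a j := by
    intro a ha i
    have hsub : c a i ⊆ S a := Finset.subset_biUnion_of_mem (c a) (Finset.mem_univ i)
    have h1 : vv e (c a i) = ∑ α ∈ (c a i).filter (· ∈ R), xx e α +
        ∑ α ∈ (c a i).filter (fun α => ¬ α ∈ R), xx e α :=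
      (Finset.sum_filter_add_sum_filter_not _ _ _).symm
    rw [h1]
    congr 1
    · -- the root part
      show _ = ∑ α ∈ ρ i, xx e α.1
      rw [← hρ a ha i]
      symm
      apply Finset.sum_bij (fun α _ => α.1)
      · intro α hα
        exact Finset.mem_filter.2 ⟨(Finset.mem_filter.1 hα).2, α.2⟩
      · intro α _ β _ h
        exact Subtype.ext h
      · intro α hα
        obtain ⟨h2, h3⟩ := Finset.mem_filter.1 hα
        exact ⟨⟨α, h3⟩, Finset.mem_filter.2 ⟨Finset.mem_attach _ _, h2⟩, rfl⟩
      · intro α _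
        rfl
    · -- the tail part
      rw [← hu a ha i]
      symm
      have hget : ∀ j ∈ (Finset.range (τ a).card).filter fun j =>
          ∃ β ∈ c a i, (L a)[j]? = some β, ∃ β ∈ c a i, (L a)[j]? = some β :=
        fun j hj => (Finset.mem_filter.1 hj).2
      have hnodup : (L a).Nodup := (sort_pairwise (τ a)).imp (fun h => ne_of_lt h)
      apply Finset.sum_bij (fun j hj => (hget j hj).choose)
      · intro j hj
        obtain ⟨h2, h3⟩ := (hget j hj).choose_spec
        refine Finset.mem_filter.2 ⟨h2, ?_⟩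
        have h4 : (hget j hj).choose ∈ L a := List.mem_of_getElem? h3
        have h5 : (hget j hj).choose ∈ τ a := (Finset.mem_sort _).1 h4
        exact (Finset.mem_sdiff.1 h5).2
      · intro j hj j' hj' h
        obtain ⟨h2, h3⟩ := (hget j hj).choose_spec
        obtain ⟨h2', h3'⟩ := (hget j' hj').choose_spec
        rw [← h] at h3'
        have hlt : j < (L a).length := (List.getElem?_eq_some_iff.1 h3).1
        exact (List.getElem?_inj hlt hnodup).1 (h3.trans h3'.symm)
      · intro α hα
        obtain ⟨h2, h3⟩ := Finset.mem_filter.1 hα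
        have h4 : α ∈ L a := (Finset.mem_sort _).2 (Finset.mem_sdiff.2 ⟨hsub h2, h3⟩)
        obtain ⟨j, hj⟩ := List.mem_iff_getElem?.1 h4
        have hlt : j < (L a).length := (List.getElem?_eq_some_iff.1 hj).1
        have hlt' : j < (τ a).card := by
          have h5 : (L a).length = (τ a).card := Finset.length_sort _
          omega
        have hjm : j ∈ (Finset.range (τ a).card).filter fun j =>
            ∃ β ∈ c a i, (L a)[j]? = some β :=
          Finset.mem_filter.2 ⟨Finset.mem_range.2 hlt', α, h2, hj⟩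
        refine ⟨j, hjm, ?_⟩
        have h6 := (hget j hjm).choose_spec.2
        exact (Option.some.inj (hj.symm.trans h6)).symm
      · intro j hj
        have h3 := (hget j hj).choose_spec.2
        have h4 : ((L a).map (xx e))[j]? = some (xx e (hget j hj).choose) := by
          rw [List.getElem?_map]
          exact congrArg (Option.map (xx e)) h3
        show ((L a).map (xx e)).getD j 0 = _
        rw [List.getD_eq_getElem?_getD, h4]
        rfl
  have hune : ∀ i, (u i).Nonempty := by
    intro i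
    by_contra hne
    rw [Finset.not_nonempty_iff_eq_empty] at hne
    apply hJ2u
    apply Set.Subsingleton.countable
    intro a ha b hb
    by_contra hab
    apply hdisj a (hJ2J ha) b (hJ2J hb) hab i
    rw [hv a ha i, hv b hb i, hne]
    simp
  -- density of the tails
  obtain ⟨q0, hq0len, hq0⟩ := xx_dense e he hJ2u L m
    (fun a _ => sort_pairwise (τ a)) hLlen (by
      intro a ha b hb hab α hα hα'
      have h1 : α ∈ τ a := (Finset.mem_sort _).1 hα
      have h2 : α ∈ τ b := (Finset.mem_sort _).1 hα'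
      have h3 : α ∈ R := by
        rw [← hR a ha.1 b hb.1 hab]
        exact Finset.mem_inter.2 ⟨(Finset.mem_sdiff.1 h1).1, (Finset.mem_sdiff.1 h2).1⟩
      exact (Finset.mem_sdiff.1 h1).2 h3)
  have hy : ∀ a ∈ J2, ∀ q : Cnd,
      List.Forall₂ (fun x s => ∃ n, pre n x = s) ((L a).map (xx e)) q →
      ∀ j < m, ∀ s, q[j]? = some s → pre s.length (y a j) = s := by
    intro a ha q hf j hj s hs
    rw [List.forall₂_iff_get] at hf
    have hj' : j < ((L a).map (xx e)).length := by rw [List.length_map, hLlen a ha]; exact hj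
    obtain ⟨n, hn⟩ := hf.2 j hj' (hf.1 ▸ hj')
    have h1 : q.get ⟨j, hf.1 ▸ hj'⟩ = s := by
      rw [List.get_eq_getElem]
      exact (List.getElem?_eq_some_iff.1 hs).2
    have h2 : ((L a).map (xx e)).get ⟨j, hj'⟩ = y a j := by
      show _ = ((L a).map (xx e)).getD j 0
      rw [List.getD_eq_getElem _ _ hj']
      rfl
    rw [h1, h2] at hn
    rw [← hn, length_pre]
  obtain ⟨a0, ha0, hfa0⟩ := hq0 q0 (List.forall₂_same.2 fun s _ => List.prefix_rfl)
  -- the separating level
  obtain ⟨N, hNd, hNq⟩ : ∃ N, (∀ i j, i ≠ j → pre N (vv e (c a0 i)) ≠ pre N (vv e (c a0 j))) ∧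
      ∀ s ∈ q0, s.length ≤ N := by
    have h1 : ∀ᶠ N in Filter.atTop, ∀ i j, i ≠ j →
        pre N (vv e (c a0 i)) ≠ pre N (vv e (c a0 j)) := by
      rw [Filter.eventually_all]
      intro i
      rw [Filter.eventually_all]
      intro j
      by_cases hij : i = j
      · exact Filter.Eventually.of_forall fun _ h => absurd hij h
      · obtain ⟨l, hl⟩ := Function.ne_iff.1 (hdist a0 (hJ2J ha0) i j hij)
        filter_upwards [Filter.eventually_gt_atTop l] with N hN _ heq
        exact hl (pre_eq_iff.1 heq l hN)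
    obtain ⟨N, hN1, hN2⟩ := (h1.and (Filter.eventually_ge_atTop
      ((q0.map List.length).sum))).exists
    exact ⟨N, hN1, fun s hs => (List.single_le_sum (by simp) _
      (List.mem_map_of_mem hs)).trans hN2⟩
  let Wf : Finset (List Z) :=
    (Finset.univ.filter fun i => t i = true).image fun i => pre N (vv e (c a0 i))
  have hW : ∀ i, pre N (vv e (c a0 i)) ∈ Wf ↔ t i = true := by
    intro i
    constructor
    · intro h
      obtain ⟨j, hj, hji⟩ := Finset.mem_image.1 h
      have hij : j = i := by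
        by_contra hne
        exact hNd j i hne hji
      rw [← hij]
      exact (Finset.mem_filter.1 hj).2
    · intro h
      exact Finset.mem_image_of_mem _ (Finset.mem_filter.2 ⟨Finset.mem_univ _, h⟩)
  have hinf : {n | N ≤ n ∧ code n = (N, Wf) ∧ ∀ α ∈ R, xx e α n = 0}.Infinite := by
    rw [← Nat.frequently_atTop_iff_infinite, Filter.frequently_atTop]
    intro N'
    obtain ⟨n, hn, hc, hx⟩ := xx_vanish e (N, Wf) (max N N') R
    exact ⟨n, (le_max_right _ _).trans hn, (le_max_left _ _).trans hn, hc, hx⟩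
  let nn : ℕ → ℕ := Nat.nth (· ∈ {n | N ≤ n ∧ code n = (N, Wf) ∧ ∀ α ∈ R, xx e α n = 0})
  have hnn : ∀ j, N ≤ nn j ∧ code (nn j) = (N, Wf) ∧ ∀ α ∈ R, xx e α (nn j) = 0 := fun j =>
    Nat.nth_mem_of_infinite hinf j
  have hnnmono : StrictMono nn := Nat.nth_strictMono hinf
  let M : ℕ := nn m + 1
  have hNM : N ≤ M := (hnn m).1.trans (Nat.le_succ _)
  let z : ℕ → X2 := fun j l => if l < N then y a0 j l else 0
  let z' : ℕ → X2 := fun j l => z j l + if l = nn j then 1 else 0
  have hleq : ∀ w : ℕ → X2, (∀ j, ∀ l < N, w j l = y a0 j l) →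
      ∃ a ∈ J2, ∀ j < m, ∀ l < M, y a j l = w j l := by
    intro w hw
    obtain ⟨a, ha, hfa⟩ := hq0 ((List.range m).map fun j => pre M (w j)) (by
      refine List.forall₂_iff_get.2 ⟨by simp [hq0len], fun j h1 h2 => ?_⟩
      have hjm : j < m := by rw [← hq0len]; exact h1
      have h3 := hy a0 ha0 q0 hfa0 j hjm (q0.get ⟨j, h1⟩) (by
        rw [List.get_eq_getElem]
        exact List.getElem?_eq_getElem h1)
      have h4 : (q0.get ⟨j, h1⟩).length ≤ N := hNq _ (List.get_mem _ _)
      rw [← h3]
      have h5 : pre (q0.get ⟨j, h1⟩).length (y a0 j) = pre (q0.get ⟨j, h1⟩).length (w j) :=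
        pre_eq_iff.2 fun l hl => (hw j l (hl.trans_le h4)).symm
      have h6 : ((List.range m).map fun j => pre M (w j)).get ⟨j, h2⟩ = pre M (w j) := by
        simp
      rw [h5, h6]
      exact pre_prefix (h4.trans hNM) _)
    refine ⟨a, ha, fun j hj l hl => ?_⟩
    have h7 := hy a ha _ hfa j hj (pre M (w j)) (by
      rw [List.getElem?_map, List.getElem?_range hj]
      rfl)
    rw [length_pre] at h7
    exact pre_eq_iff.1 h7 l hl
  obtain ⟨a, ha, hya⟩ := hleq z (by
    intro j l hl
    show (if l < N then y a0 j l else 0) = _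
    rw [if_pos hl])
  obtain ⟨b, hb, hyb⟩ := hleq z' (by
    intro j l hl
    show (if l < N then y a0 j l else 0) + (if l = nn j then 1 else 0) = _
    rw [if_pos hl, if_neg, add_zero]
    have := (hnn j).1
    omega)
  -- the values
  have hva : ∀ i, ∀ l < M, vv e (c a i) l = g i l + ∑ j ∈ u i, z j l := by
    intro i l hl
    rw [hv a ha i, Pi.add_apply, Finset.sum_apply]
    congr 1
    apply Finset.sum_congr rfl
    intro j hj
    exact hya j (hum i j hj) l hl
  have hvb : ∀ i, ∀ l < M, vv e (c b i) l =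
      g i l + ∑ j ∈ u i, z j l + ∑ j ∈ u i, (if l = nn j then (1 : Z) else 0) := by
    intro i l hl
    rw [hv b hb i, Pi.add_apply, Finset.sum_apply, add_assoc, ← Finset.sum_add_distrib]
    congr 1
    apply Finset.sum_congr rfl
    intro j hj
    exact hyb j (hum i j hj) l hl
  have hkey : ∀ i, ∃ n, (∀ l < n, vv e (c a i) l = vv e (c b i) l) ∧ vv e (c a i) n = 0 ∧
      vv e (c b i) n = 1 ∧ eps (vv e (c a i)) n = (if t i = true then 1 else 0) ∧
      eps (vv e (c b i)) n = (if t i = true then 1 else 0) := by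
    intro i
    set js := (u i).min' (hune i) with hjs
    have hjsm : js ∈ u i := Finset.min'_mem _ _
    have hlt : nn js < M := Nat.lt_succ_of_le (hnnmono.monotone (hum i js hjsm).le)
    have hbelow : ∀ l < nn js, vv e (c a i) l = vv e (c b i) l := by
      intro l hl
      rw [hva i l (hl.trans hlt), hvb i l (hl.trans hlt)]
      have : ∑ j ∈ u i, (if l = nn j then (1 : Z) else 0) = 0 := by
        apply Finset.sum_eq_zero
        intro j hj
        rw [if_neg]
        have h1 : nn js ≤ nn j := hnnmono.monotone (Finset.min'_le _ _ hj)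
        omega
      rw [this, add_zero]
    have hz : g i (nn js) + ∑ j ∈ u i, z j (nn js) = 0 := by
      have h1 : g i (nn js) = 0 := by
        show (∑ α ∈ ρ i, xx e α.1) (nn js) = 0
        rw [Finset.sum_apply]
        apply Finset.sum_eq_zero
        intro α _
        exact (hnn js).2.2 α.1 α.2
      have h2 : ∑ j ∈ u i, z j (nn js) = 0 := by
        apply Finset.sum_eq_zero
        intro j _
        show (if nn js < N then y a0 j (nn js) else 0) = 0
        rw [if_neg (not_lt.2 (hnn js).1)]
      rw [h1, h2, add_zero]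
    have h0 : vv e (c a i) (nn js) = 0 := by rw [hva i _ hlt, hz]
    have h1 : vv e (c b i) (nn js) = 1 := by
      rw [hvb i _ hlt, hz, zero_add, Finset.sum_eq_single_of_mem js hjsm]
      · rw [if_pos rfl]
      · intro j _ hne
        rw [if_neg]
        intro h
        exact hne (hnnmono.injective h).symm
    have heps : eps (vv e (c a i)) (nn js) = (if t i = true then 1 else 0) := by
      unfold eps
      rw [(hnn js).2.1]
      have h2 : pre N (vv e (c a i)) = pre N (vv e (c a0 i)) := by
        rw [pre_eq_iff]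
        intro l hl
        rw [hva i l (hl.trans_le hNM), hv a0 ha0 i, Pi.add_apply, Finset.sum_apply]
        congr 1
        apply Finset.sum_congr rfl
        intro j _
        show (if l < N then y a0 j l else 0) = _
        rw [if_pos hl]
      simp only [h2, hW i, (hnn js).1, true_and]
    refine ⟨nn js, hbelow, h0, h1, heps, ?_⟩
    rw [← heps]
    exact (eps_congr hbelow).symm
  refine ⟨a, hJ2J ha, b, hJ2J hb, ?_, fun i => ?_⟩
  · rintro rfl
    obtain ⟨n, -, h0, h1, -⟩ := hkey ⟨0, hk⟩
    rw [h0] at h1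
    exact zero_ne_one h1
  · obtain ⟨n, hbelow, h0, h1, h2, h3⟩ := hkey i
    cases ht : t i
    · rw [ht] at h2 h3
      simp only [Bool.false_eq_true, if_false] at h2 h3
      simp only [iff_true]
      exact phi_lt hbelow (by rw [h0, h2, add_zero]) (by rw [h1, h3, add_zero])
    · rw [ht] at h2 h3
      simp only [if_true] at h2 h3
      simp only [Bool.true_eq_false, iff_false, not_lt]
      apply le_of_lt
      exact phi_lt (fun l hl => (hbelow l hl).symm) (by rw [h1, h3]; decide)
        (by rw [h0, h2, zero_add])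

end CH

end Pool.Agent.X215.Ent
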